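import Mathlib
import Pool.Agent.Helper94.EC.Bounds

/-!
# MP_0db605_an, EC-Z1 : facts on the cutoff `eta`
-/

set_option autoImplicit false

namespace EC

theorem eta_mem (K u y w z : ℝ) : 0 ≤ eta K u y w z ∧ eta K u y w z ≤ 1 := by
  refine ⟨sq_nonneg _, ?_⟩
  unfold eta
  exact pow_le_one₀ (bd_theta_nonneg _ _ _ _ _) (bd_theta_le _ _ _ _ _)

theorem eta_diff {K u y w z u' y' w' z' : ℝ} (hK : 0 < K) :
    (eta K u' y' w' z' - eta K u y w z) ^ 2
      ≤ 16 / K ^ 4 * (NN u y w z + NN u' y' w' z')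
        * ((k2 u' - k2 u) ^ 2 + (k1 y' - k1 y) ^ 2 + (w' - w) ^ 2 + (z' - z) ^ 2) := by
  set dp := (k2 u' - k2 u) ^ 2 + (k1 y' - k1 y) ^ 2 + (w' - w) ^ 2 + (z' - z) ^ 2 with hdp
  have hdp0 : 0 ≤ dp := by positivity
  have hN0 := bd_NN_nonneg u y w z
  have hN0' := bd_NN_nonneg u' y' w' z'
  -- the difference of the `NN`
  have hNN : (NN u' y' w' z' - NN u y w z) ^ 2
      ≤ 2 * (NN u y w z + NN u' y' w' z') * dp := by
    have e : NN u' y' w' z' - NN u y w z =
        (k2 u' + k2 u) * (k2 u' - k2 u) + (k1 y' + k1 y) * (k1 y' - k1 y)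
          + (w' + w) * (w' - w) + (z' + z) * (z' - z) := by
      unfold NN; ring
    rw [e]
    refine le_trans (bd_cs4 _ _ _ _ _ _ _ _) ?_
    refine mul_le_mul_of_nonneg_right ?_ hdp0
    unfold NN
    nlinarith [sq_nonneg (k2 u' - k2 u), sq_nonneg (k1 y' - k1 y), sq_nonneg (w' - w),
      sq_nonneg (z' - z)]
  -- the difference of the `theta`
  have hth : (theta K u' y' w' z' - theta K u y w z) ^ 2
      ≤ (NN u' y' w' z' - NN u y w z) ^ 2 / K ^ 4 := by
    have h1 : |theta K u' y' w' z' - theta K u y w z| ≤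
        |(NN u' y' w' z' - NN u y w z) / K ^ 2| := by
      unfold theta
      refine le_trans (bd_pos_lip _ _) ?_
      have e : (1 - NN u' y' w' z' / K ^ 2) - (1 - NN u y w z / K ^ 2) =
        -((NN u' y' w' z' - NN u y w z) / K ^ 2) := by ring
      rw [e, abs_neg]
    have h2 := pow_le_pow_left₀ (abs_nonneg _) h1 2
    rw [sq_abs, sq_abs, div_pow] at h2
    have e : (K ^ 2) ^ 2 = K ^ 4 := by ring
    rwa [e] at h2
  have t0 := bd_theta_nonneg K u y w z
  have t1 := bd_theta_le K u y w z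
  have t0' := bd_theta_nonneg K u' y' w' z'
  have t1' := bd_theta_le K u' y' w' z'
  have hs : (theta K u' y' w' z' + theta K u y w z) ^ 2 ≤ 4 := by nlinarith
  have e : (eta K u' y' w' z' - eta K u y w z) ^ 2 =
      (theta K u' y' w' z' - theta K u y w z) ^ 2
        * (theta K u' y' w' z' + theta K u y w z) ^ 2 := by
    unfold eta; ring
  rw [e]
  have hK4 : 0 < K ^ 4 := by positivity
  calc (theta K u' y' w' z' - theta K u y w z) ^ 2
        * (theta K u' y' w' z' + theta K u y w z) ^ 2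
      ≤ ((NN u' y' w' z' - NN u y w z) ^ 2 / K ^ 4) * 4 :=
        mul_le_mul hth hs (sq_nonneg _) (by positivity)
    _ ≤ ((2 * (NN u y w z + NN u' y' w' z') * dp) / K ^ 4) * 4 := by gcongr
    _ = 8 / K ^ 4 * (NN u y w z + NN u' y' w' z') * dp := by ring
    _ ≤ 16 / K ^ 4 * (NN u y w z + NN u' y' w' z') * dp := by
        gcongr
        norm_num

theorem one_sub_eta {K u y w z : ℝ} (hK : 0 < K)
    (hu : |u| ≤ 2 * K) (hy : |y| ≤ 2 * K) (hw : |w| ≤ 2 * K) (hz : |z| ≤ 2 * K) :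
    NN u y w z / (16 * K ^ 2) ≤ 1 - eta K u y w z ∧
      1 - eta K u y w z ≤ 2 * NN u y w z / K ^ 2 := by
  have hK2 : 0 < K ^ 2 := by positivity
  have hN0 := bd_NN_nonneg u y w z
  have hN16 : NN u y w z ≤ 16 * K ^ 2 := by
    have sq4 : ∀ x : ℝ, |x| ≤ 2 * K → x ^ 2 ≤ 4 * K ^ 2 := by
      intro x hx
      have h2 := pow_le_pow_left₀ (abs_nonneg _) hx 2
      rw [sq_abs] at h2
      linarith
    have h1 := sq4 _ (le_trans (bd_k2_abs u) hu)
    have h2 := sq4 _ (le_trans (bd_k1_abs y) hy)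
    have h3 := sq4 _ hw
    have h4 := sq4 _ hz
    unfold NN
    linarith
  set x := NN u y w z / K ^ 2 with hx
  have hx0 : 0 ≤ x := div_nonneg hN0 hK2.le
  have hx16 : x ≤ 16 := by
    rw [hx, div_le_iff₀ hK2]
    exact hN16
  have e1 : NN u y w z / (16 * K ^ 2) = x / 16 := by
    rw [hx]; field_simp
  have e2 : 2 * NN u y w z / K ^ 2 = 2 * x := by
    rw [hx]; ring
  have e3 : eta K u y w z = (max (1 - x) 0) ^ 2 := by
    unfold eta theta pos
    rw [hx]
  rw [e1, e2, e3]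
  rcases le_total x 1 with h | h
  · rw [max_eq_left (by linarith : (0:ℝ) ≤ 1 - x)]
    constructor <;> nlinarith
  · rw [max_eq_right (by linarith : 1 - x ≤ (0:ℝ))]
    constructor <;> norm_num <;> linarith

theorem theta_pos_of_eta {K u y w z : ℝ} (h : 0 < eta K u y w z) : 0 < theta K u y w z := by
  rcases (bd_theta_nonneg K u y w z).eq_or_lt with h0 | h0
  · unfold eta at h
    rw [← h0] at h
    norm_num at h
  · exact h0

/-- products with the cutoff vector -/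
theorem k2_facts {u u' : ℝ} : |k2 u' - k2 u| ≤ |u' - u| ∧ (k2 u ≠ 0 → 2 ≤ |u|) ∧ |k2 u| ≤ |u| := by
  refine ⟨bd_k2_lip _ _, ?_, bd_k2_abs _⟩
  intro h
  by_contra hlt
  push Not at hlt
  rw [abs_lt] at hlt
  apply h
  unfold k2 pos
  rw [max_eq_right (by linarith : u - 2 ≤ 0), max_eq_right (by linarith : -u - 2 ≤ 0)]
  norm_num

theorem k1_facts {y y' : ℝ} : |k1 y' - k1 y| ≤ |y' - y| ∧ (k1 y ≠ 0 → 1 ≤ |y|) ∧ |k1 y| ≤ |y| := by
  refine ⟨bd_k1_lip _ _, ?_, bd_k1_abs _⟩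
  intro h
  by_contra hlt
  push Not at hlt
  rw [abs_lt] at hlt
  apply h
  unfold k1 pos
  rw [max_eq_right (by linarith : y - 1 ≤ 0), max_eq_right (by linarith : -y - 1 ≤ 0)]
  norm_num

end EC
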