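import Pool.Agent.Helper35.EC.Geom

/-!
# MP_0db605_an, piece EC-T6b : the exposed condition fails
-/

namespace EC

open Matrix Filter Topology
open scoped Matrix.Norms.Elementwise

namespace NotExposed

theorem pos_of_nonneg {x : ℝ} (h : 0 ≤ x) : pos x = x := max_eq_left h
theorem pos_of_nonpos {x : ℝ} (h : x ≤ 0) : pos x = 0 := max_eq_right h

/-- the slope matrix -/
noncomputable def XX (ε u y : ℝ) : M2 := mat (ε * u) (ε * y) 0 0

noncomputable def DDet (h u y : ℝ) : ℝ := 1 + 2 * h * (u ^ 2 + y ^ 2) + h ^ 2 * (u ^ 2 - y ^ 2) ^ 2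

/-- inverse of `1 + XᵀX` -/
noncomputable def NI (h u y : ℝ) : M2 :=
  !![(1 + h * (u ^ 2 + y ^ 2)) / DDet h u y, -(2 * h * u * y) / DDet h u y;
     -(2 * h * u * y) / DDet h u y, (1 + h * (u ^ 2 + y ^ 2)) / DDet h u y]

/-- `1 + XᵀX` -/
noncomputable def NM (h u y : ℝ) : M2 :=
  !![1 + h * (u ^ 2 + y ^ 2), 2 * h * u * y; 2 * h * u * y, 1 + h * (u ^ 2 + y ^ 2)]

theorem gram (ε u y : ℝ) : (stack 1 (XX ε u y))ᵀ * stack 1 (XX ε u y) = NM (ε ^ 2) u y := by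
  ext i j
  fin_cases i <;> fin_cases j <;>
    simp [stack, XX, mat, NM, Matrix.mul_apply, Fin.sum_univ_four, Matrix.transpose_apply] <;> ring

theorem DDet_pos {h u y : ℝ} (h0 : 0 ≤ h) : 0 < DDet h u y := by
  unfold DDet
  positivity

theorem NM_mul_NI {h u y : ℝ} (h0 : 0 ≤ h) : NM h u y * NI h u y = 1 := by
  have hD := (DDet_pos (u := u) (y := y) h0).ne'
  ext i j
  fin_cases i <;> fin_cases j <;>
    simp [NM, NI, Matrix.mul_apply, Fin.sum_univ_two] <;> field_simp <;> unfold DDet <;> ring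

theorem NI_mul_NM {h u y : ℝ} (h0 : 0 ≤ h) : NI h u y * NM h u y = 1 :=
  mul_eq_one_comm.1 (NM_mul_NI h0)

theorem Pm_eq (ε u y : ℝ) :
    Pm (XX ε u y) = stack 1 (XX ε u y) * NI (ε ^ 2) u y * (stack 1 (XX ε u y))ᵀ := by
  unfold Pm colProj
  rw [gram, Matrix.inv_eq_right_inv (NM_mul_NI (sq_nonneg ε))]

theorem NI_transpose (h u y : ℝ) : (NI h u y)ᵀ = NI h u y := by
  ext i j
  fin_cases i <;> fin_cases j <;> simp [NI]

theorem Pm_mem (ε u y : ℝ) : Pm (XX ε u y) ∈ Gr 4 2 := by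
  have h0 : 0 ≤ ε ^ 2 := sq_nonneg ε
  set V := stack 1 (XX ε u y) with hV
  have hmul : Pm (XX ε u y) * V = V := by
    rw [Pm_eq, ← hV, Matrix.mul_assoc, gram, Matrix.mul_assoc, NI_mul_NM h0, Matrix.mul_one]
  refine ⟨?_, ?_, ?_⟩
  · rw [Pm_eq, Matrix.transpose_mul, Matrix.transpose_mul, NI_transpose,
      Matrix.transpose_transpose, Matrix.mul_assoc]
  · conv_lhs => rw [Pm_eq, ← hV]
    rw [← Matrix.mul_assoc]
    have : V * NI (ε ^ 2) u y * Vᵀ * (V * NI (ε ^ 2) u y) = V * NI (ε ^ 2) u y := by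
      rw [← Matrix.mul_assoc, Matrix.mul_assoc (V * NI (ε ^ 2) u y) Vᵀ V, gram,
        Matrix.mul_assoc V _ (NM _ _ _), NI_mul_NM h0, Matrix.mul_one]
    rw [this, Pm_eq]
  · apply le_antisymm
    · rw [Pm_eq, Matrix.mul_assoc]
      exact (Matrix.rank_mul_le_left _ _).trans (Matrix.rank_le_width _)
    · have h1 : (Vᵀ * V).rank = 2 := by
        rw [gram]
        have : IsUnit (NM (ε ^ 2) u y) :=
          ⟨⟨NM (ε ^ 2) u y, NI (ε ^ 2) u y, NM_mul_NI h0, NI_mul_NM h0⟩, rfl⟩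
        rw [Matrix.rank_of_isUnit _ this]
        simp
      calc 2 = (Vᵀ * V).rank := h1.symm
        _ ≤ V.rank := Matrix.rank_mul_le_right _ _
        _ = (Pm (XX ε u y) * V).rank := by rw [hmul]
        _ ≤ _ := Matrix.rank_mul_le_left _ _

theorem blk11_Pm (ε u y : ℝ) : blk11 (Pm (XX ε u y)) = NI (ε ^ 2) u y := by
  rw [Pm_eq]
  ext i j
  fin_cases i <;> fin_cases j <;>
    simp [blk11, stack, Matrix.mul_apply, Fin.sum_univ_two, Matrix.transpose_apply,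
      Matrix.vecMul, dotProduct]

theorem blk21_Pm (ε u y : ℝ) : blk21 (Pm (XX ε u y)) = XX ε u y * NI (ε ^ 2) u y := by
  rw [Pm_eq]
  ext i j
  fin_cases i <;> fin_cases j <;>
    simp [blk21, stack, Matrix.mul_apply, Fin.sum_univ_two, Matrix.transpose_apply,
      Matrix.vecMul, dotProduct]

theorem Xof_Pm' (ε u y : ℝ) : Xof (Pm (XX ε u y)) = XX ε u y := by
  unfold Xof
  rw [blk11_Pm, blk21_Pm, Matrix.inv_eq_right_inv (NI_mul_NM (sq_nonneg ε)), Matrix.mul_assoc,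
    NI_mul_NM (sq_nonneg ε), Matrix.mul_one]

theorem det_blk11 (ε u y : ℝ) : (blk11 (Pm (XX ε u y))).det = 1 / DDet (ε ^ 2) u y := by
  have hD := (DDet_pos (u := u) (y := y) (sq_nonneg ε)).ne'
  rw [blk11_Pm, Matrix.det_fin_two]
  simp only [NI, Matrix.of_apply, Matrix.cons_val_zero, Matrix.cons_val_one]
  rw [div_mul_div_comm, div_mul_div_comm, ← sub_div, div_eq_div_iff (mul_ne_zero hD hD) hD]
  unfold DDet
  ring

/-- the image matrix -/
noncomputable def EE (ε u y P Q : ℝ) : M4 :=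
  Matrix.of ![
    ![1 - ε ^ 2 * (u * P + y * Q), -(ε ^ 2 * (u * Q + y * P)),
      ε * (u - ε ^ 2 * ((u ^ 2 + y ^ 2) * P + 2 * u * y * Q)),
      ε * (y - ε ^ 2 * ((u ^ 2 + y ^ 2) * Q + 2 * u * y * P))],
    ![-(ε ^ 2 * (u * Q + y * P)), 1 - ε ^ 2 * (u * P + y * Q),
      ε * (y - ε ^ 2 * ((u ^ 2 + y ^ 2) * Q + 2 * u * y * P)),
      ε * (u - ε ^ 2 * ((u ^ 2 + y ^ 2) * P + 2 * u * y * Q))],
    ![ε * P, ε * Q, ε ^ 2 * (u * P + y * Q), ε ^ 2 * (u * Q + y * P)],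
    ![ε * Q, ε * P, ε ^ 2 * (u * Q + y * P), ε ^ 2 * (u * P + y * Q)]]

/-- the `4 × 2` matrix with explicit entries -/
theorem stack_explicit (a b c d a' b' c' d' : ℝ) :
    stack !![a, b; c, d] !![a', b'; c', d'] = !![a, b; c, d; a', b'; c', d'] := by
  ext i j
  fin_cases i <;> fin_cases j <;> rfl

theorem stack_one_XX (ε u y : ℝ) :
    stack 1 (XX ε u y) = !![1, 0; 0, 1; ε * u, ε * y; ε * y, ε * u] := by
  rw [Matrix.one_fin_two, XX, mat, stack_explicit]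
  simp

theorem stack_neg_XX (ε u y : ℝ) :
    stack (-(XX ε u y)ᵀ) 1 = !![-(ε * u), -(ε * y); -(ε * y), -(ε * u); 1, 0; 0, 1] := by
  have : -(XX ε u y)ᵀ = !![-(ε * u), -(ε * y); -(ε * y), -(ε * u)] := by
    ext i j
    fin_cases i <;> fin_cases j <;> simp [XX, mat]
  rw [Matrix.one_fin_two, this, stack_explicit]

theorem mat_zero (a b : ℝ) : mat a b 0 0 = !![a, b; b, a] := by
  simp [mat]

theorem image_eq {ε u y P Q : ℝ} :
    Pm (XX ε u y) + stack (-(XX ε u y)ᵀ) 1 *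
      (ε • mat (P - u * (1 + ε ^ 2 * (u ^ 2 - y ^ 2)) / DDet (ε ^ 2) u y)
        (Q - y * (1 - ε ^ 2 * (u ^ 2 - y ^ 2)) / DDet (ε ^ 2) u y) 0 0) *
      (stack 1 (XX ε u y))ᵀ = EE ε u y P Q := by
  have hD := (DDet_pos (u := u) (y := y) (sq_nonneg ε)).ne'
  have key : stack 1 (XX ε u y) * NI (ε ^ 2) u y + stack (-(XX ε u y)ᵀ) 1 *
      (ε • mat (P - u * (1 + ε ^ 2 * (u ^ 2 - y ^ 2)) / DDet (ε ^ 2) u y)
        (Q - y * (1 - ε ^ 2 * (u ^ 2 - y ^ 2)) / DDet (ε ^ 2) u y) 0 0) =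
      !![1 - ε ^ 2 * (u * P + y * Q), -(ε ^ 2 * (u * Q + y * P));
        -(ε ^ 2 * (u * Q + y * P)), 1 - ε ^ 2 * (u * P + y * Q); ε * P, ε * Q; ε * Q, ε * P] := by
    rw [stack_one_XX, stack_neg_XX, mat_zero]
    ext i j
    fin_cases i <;> fin_cases j <;>
      simp [NI, Matrix.mul_apply, Fin.sum_univ_two] <;> field_simp <;> unfold DDet <;> ring
  rw [Pm_eq, ← Matrix.add_mul, key, stack_one_XX]
  ext i j
  fin_cases i <;> fin_cases j <;>
    simp [EE, Matrix.mul_apply, Fin.sum_univ_two, Matrix.transpose_apply] <;> ring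

theorem h_small {ε K : ℝ} (hK : 10 ^ 10 ≤ K) (hh : 10 ^ 60 * K ^ 40 * ε ^ 2 ≤ 1) :
    ε ^ 2 ≤ 1 / 10 := by
  have h1 : (1 : ℝ) ≤ K ^ 40 := one_le_pow₀ (le_trans (by norm_num) hK)
  have h2 : 0 ≤ ε ^ 2 := sq_nonneg ε
  nlinarith [mul_le_mul_of_nonneg_right h1 h2]

theorem yf_nonneg_p {h u p : ℝ} (h0 : 0 ≤ p) (h2 : p ≤ 2) : yf h u p = h * (p + u ^ 3) := by
  unfold yf om
  rw [pos_of_nonpos (by linarith), pos_of_nonpos (by linarith)]
  ring

theorem yf_neg_p {h u p : ℝ} (h0 : p ≤ 0) : yf h u p = 4 * p + h * u ^ 3 := by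
  unfold yf om
  rw [pos_of_nonpos (by linarith), pos_of_nonneg (by linarith)]
  ring

theorem pf_yf' {h u p : ℝ} (hh : 0 < h) (h2 : p ≤ 2) : pf h u (yf h u p) = p := by
  rcases le_total 0 p with h0 | h0
  · rw [yf_nonneg_p h0 h2]
    unfold pf Phi
    have e : h * (p + u ^ 3) - h * u ^ 3 = h * p := by ring
    rw [e, pos_of_nonneg (by positivity), pos_of_nonpos (by nlinarith)]
    field_simp
    ring
  · rw [yf_neg_p h0]
    unfold pf Phi
    have e : 4 * p + h * u ^ 3 - h * u ^ 3 = 4 * p := by ring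
    rw [e, pos_of_nonpos (by linarith), pos_of_nonpos (by linarith)]
    ring

theorem abs_yf_le {h u p : ℝ} (h0 : 0 < h) (h1 : h ≤ 1 / 10) (hu : |u| ≤ 1) (hp : -(1 / 8) ≤ p)
    (hp' : p ≤ 1) : |yf h u p| ≤ 1 := by
  have hu3 : |u ^ 3| ≤ 1 := by
    rw [abs_pow]
    exact pow_le_one₀ (abs_nonneg u) hu
  rw [abs_le] at hu3 ⊢
  rcases le_total 0 p with h2 | h2
  · rw [yf_nonneg_p h2 (by linarith)]
    constructor <;> nlinarith
  · rw [yf_neg_p h2]
    constructor <;> nlinarith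

theorem NN_zero {u y : ℝ} (hu : |u| ≤ 1) (hy : |y| ≤ 1) : NN u y 0 0 = 0 := by
  rw [abs_le] at hu hy
  unfold NN k2 k1
  rw [pos_of_nonpos (by linarith), pos_of_nonpos (by linarith), pos_of_nonpos (by linarith),
    pos_of_nonpos (by linarith)]
  ring

theorem Aof_slice {ε K u p : ℝ} (hε : 0 < ε) (hK : 10 ^ 10 ≤ K)
    (hh : 10 ^ 60 * K ^ 40 * ε ^ 2 ≤ 1) (hu : |u| ≤ 1) (hp : -(1 / 8) ≤ p) (hp' : p ≤ 1) :
    Aof ε K (Pm (XX ε u (yf (ε ^ 2) u p))) =
      EE ε u (yf (ε ^ 2) u p) (Pf (ε ^ 2) u p) (4 * p) := by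
  have hs := h_small hK hh
  have h0 : 0 < ε ^ 2 := by positivity
  have hy := abs_yf_le h0 hs hu hp hp'
  have hpf := pf_yf' (u := u) h0 (show p ≤ 2 by linarith)
  set y := yf (ε ^ 2) u p with hydef
  have hu2 : u ^ 2 ≤ 1 := by rw [← sq_abs]; exact pow_le_one₀ (abs_nonneg u) hu
  have hy2 : y ^ 2 ≤ 1 := by rw [← sq_abs]; exact pow_le_one₀ (abs_nonneg y) hy
  have hDlt : DDet (ε ^ 2) u y < 2 := by
    unfold DDet
    have h1 : (u ^ 2 - y ^ 2) ^ 2 ≤ 1 := by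
      rw [sq_le_one_iff_abs_le_one, abs_le]
      constructor <;> nlinarith [sq_nonneg u, sq_nonneg y]
    have h2 : 2 * ε ^ 2 * (u ^ 2 + y ^ 2) ≤ 2 * (1 / 10) * 2 := by
      have : u ^ 2 + y ^ 2 ≤ 2 := by linarith
      have h3 : 0 ≤ u ^ 2 + y ^ 2 := by positivity
      nlinarith
    have h4 : (ε ^ 2) ^ 2 * (u ^ 2 - y ^ 2) ^ 2 ≤ 1 / 10 := by
      have : (ε ^ 2) ^ 2 ≤ 1 / 10 := by nlinarith
      have h5 : 0 ≤ (ε ^ 2) ^ 2 := by positivity
      nlinarith [sq_nonneg (u ^ 2 - y ^ 2)]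
    linarith
  have hdet : 1 / 2 < (blk11 (Pm (XX ε u y))).det := by
    rw [det_blk11]
    exact one_div_lt_one_div_of_lt (DDet_pos (sq_nonneg ε)) hDlt
  unfold Aof
  rw [if_pos hdet, Xof_Pm']
  have hcu : cu (XX ε u y) / ε = u := by
    unfold cu XX mat
    simp
    field_simp
  have hcy : cy (XX ε u y) / ε = y := by
    unfold cy XX mat
    simp
    field_simp
  have hcw : cw (XX ε u y) / ε = 0 := by
    unfold cw XX mat
    simp
  have hcz : cz (XX ε u y) / ε = 0 := by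
    unfold cz XX mat
    simp
  have hth : theta K u y 0 0 = 1 := by
    unfold theta
    rw [NN_zero hu hy]
    simp [pos]
  have heta : eta K u y 0 0 = 1 := by
    unfold eta
    rw [hth]
    norm_num
  have hk2 : k2 u = 0 := by
    rw [abs_le] at hu
    unfold k2
    rw [pos_of_nonpos (by linarith), pos_of_nonpos (by linarith)]
    ring
  have hk1 : k1 y = 0 := by
    rw [abs_le] at hy
    unfold k1
    rw [pos_of_nonpos (by linarith), pos_of_nonpos (by linarith)]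
    ring
  have hDe : Det (ε ^ 2) u y 0 0 = DDet (ε ^ 2) u y := by
    unfold Det DDet dd
    ring
  have hHP : HP (ε ^ 2) K u y 0 0 =
      Pf (ε ^ 2) u p - u * (1 + ε ^ 2 * (u ^ 2 - y ^ 2)) / DDet (ε ^ 2) u y := by
    unfold HP GaP
    rw [heta, hk2, hpf, hDe]
    unfold dd
    ring
  have hHQ : HQ (ε ^ 2) K u y 0 0 =
      4 * p - y * (1 - ε ^ 2 * (u ^ 2 - y ^ 2)) / DDet (ε ^ 2) u y := by
    unfold HQ GaQ
    rw [heta, hk1, hpf, hDe]
    unfold dd
    ring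
  have hHR : HR (ε ^ 2) K u y 0 0 = 0 := by
    unfold HR GaR
    ring
  have hHS : HS (ε ^ 2) K u y 0 0 = 0 := by
    unfold HS GaS
    ring
  unfold Hm
  rw [hcu, hcy, hcw, hcz, hHP, hHQ, hHR, hHS, image_eq]

theorem XX_zero (ε : ℝ) : XX ε 0 0 = 0 := by
  ext i j
  fin_cases i <;> fin_cases j <;> simp [XX, mat]

theorem kf_nonneg_u {u : ℝ} (h0 : 0 ≤ u) (h1 : u ≤ 1) : kf u = 0 := by
  unfold kf
  rw [pos_of_nonpos (by linarith), pos_of_nonpos (by linarith), pos_of_nonpos (by linarith)]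
  ring

theorem kf_neg_u {u : ℝ} (h0 : u ≤ 0) (h1 : -(1 / 2) ≤ u) : kf u = -u ^ 2 := by
  unfold kf
  rw [pos_of_nonpos (by linarith), pos_of_nonneg (by linarith), pos_of_nonpos (by linarith)]
  ring

/-- the linear part of `φ` -/
noncomputable def phi (h a₁ a₂ b₁ b₂ c₁ c₂ u y P Q : ℝ) : ℝ :=
  a₁ * (u * P + y * Q) + a₂ * (u * Q + y * P) + b₁ * (u - h * ((u ^ 2 + y ^ 2) * P + 2 * u * y * Q))
    + b₂ * (y - h * ((u ^ 2 + y ^ 2) * Q + 2 * u * y * P)) + c₁ * P + c₂ * Q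

theorem exists_coeffs (ε : ℝ) (l : M4 →ₗ[ℝ] ℝ) : ∃ a₁ a₂ b₁ b₂ c₁ c₂ : ℝ, ∀ u y P Q : ℝ,
    l (EE ε u y P Q) = l (EE ε 0 0 0 0) + phi (ε ^ 2) a₁ a₂ b₁ b₂ c₁ c₂ u y P Q := by
  refine ⟨l !![-ε ^ 2, 0, 0, 0; 0, -ε ^ 2, 0, 0; 0, 0, ε ^ 2, 0; 0, 0, 0, ε ^ 2],
    l !![0, -ε ^ 2, 0, 0; -ε ^ 2, 0, 0, 0; 0, 0, 0, ε ^ 2; 0, 0, ε ^ 2, 0],
    l !![0, 0, ε, 0; 0, 0, 0, ε; 0, 0, 0, 0; 0, 0, 0, 0],
    l !![0, 0, 0, ε; 0, 0, ε, 0; 0, 0, 0, 0; 0, 0, 0, 0],
    l !![0, 0, 0, 0; 0, 0, 0, 0; ε, 0, 0, 0; 0, ε, 0, 0],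
    l !![0, 0, 0, 0; 0, 0, 0, 0; 0, ε, 0, 0; ε, 0, 0, 0], fun u y P Q => ?_⟩
  have key : EE ε u y P Q = EE ε 0 0 0 0
      + (u * P + y * Q) • !![-ε ^ 2, 0, 0, 0; 0, -ε ^ 2, 0, 0; 0, 0, ε ^ 2, 0; 0, 0, 0, ε ^ 2]
      + (u * Q + y * P) • !![0, -ε ^ 2, 0, 0; -ε ^ 2, 0, 0, 0; 0, 0, 0, ε ^ 2; 0, 0, ε ^ 2, 0]
      + (u - ε ^ 2 * ((u ^ 2 + y ^ 2) * P + 2 * u * y * Q)) •
          !![0, 0, ε, 0; 0, 0, 0, ε; 0, 0, 0, 0; 0, 0, 0, 0]
      + (y - ε ^ 2 * ((u ^ 2 + y ^ 2) * Q + 2 * u * y * P)) •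
          !![0, 0, 0, ε; 0, 0, ε, 0; 0, 0, 0, 0; 0, 0, 0, 0]
      + P • !![0, 0, 0, 0; 0, 0, 0, 0; ε, 0, 0, 0; 0, ε, 0, 0]
      + Q • !![0, 0, 0, 0; 0, 0, 0, 0; 0, ε, 0, 0; ε, 0, 0, 0] := by
    ext i j
    fin_cases i <;> fin_cases j <;> simp [EE] <;> ring
  rw [key]
  simp only [map_add, map_smul, smul_eq_mul]
  unfold phi
  ring

theorem lim_le {f : ℝ → ℝ} (hf : Continuous f) (h : ∀ t, 0 < t → t ≤ 1 / 8 → f t ≤ 0) :
    f 0 ≤ 0 := by
  by_contra hc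
  push Not at hc
  have h1 : ∀ᶠ t in 𝓝 (0 : ℝ), 0 < f t := (hf.tendsto 0).eventually (lt_mem_nhds hc)
  obtain ⟨δ, hδ, hb⟩ := Metric.eventually_nhds_iff.1 h1
  have ht : 0 < min (δ / 2) (1 / 8) := by positivity
  have h2 := h _ ht (min_le_right _ _)
  have h3 : 0 < f (min (δ / 2) (1 / 8)) := by
    apply hb
    rw [Real.dist_eq, sub_zero, abs_of_pos ht]
    exact lt_of_le_of_lt (min_le_left _ _) (by linarith)
  linarith

/-- the real analysis: the functional is constant along an interval of the boundary -/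
theorem phi_eq_zero {h a₁ a₂ b₁ b₂ c₁ c₂ : ℝ} (h0 : 0 < h) (h1 : h ≤ 1 / 10)
    (H : ∀ u p : ℝ, |u| ≤ 1 → -(1 / 8) ≤ p → p ≤ 1 →
      phi h a₁ a₂ b₁ b₂ c₁ c₂ u (yf h u p) (Pf h u p) (4 * p) ≤ 0) :
    phi h a₁ a₂ b₁ b₂ c₁ c₂ 1 (yf h 1 1) (Pf h 1 1) 4 = 0 := by
  -- the values on the half axes
  have Ha : ∀ t : ℝ, 0 < t → t ≤ 1 / 8 →
      phi h a₁ a₂ b₁ b₂ c₁ c₂ t (h * t ^ 3) (4 * h * t ^ 3) 0 ≤ 0 := by
    intro t ht ht'
    have := H t 0 (by rw [abs_of_pos ht]; linarith) (by norm_num) (by norm_num)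
    rw [yf_nonneg_p le_rfl (by norm_num), Pf, kf_nonneg_u ht.le (by linarith)] at this
    convert this using 2 <;> ring
  have Hb : ∀ t : ℝ, 0 < t → t ≤ 1 / 8 →
      phi h a₁ a₂ b₁ b₂ c₁ c₂ (-t) (-(h * t ^ 3)) (-t ^ 2 - 4 * h * t ^ 3) 0 ≤ 0 := by
    intro t ht ht'
    have := H (-t) 0 (by rw [abs_neg, abs_of_pos ht]; linarith) (by norm_num) (by norm_num)
    rw [yf_nonneg_p le_rfl (by norm_num), Pf, kf_neg_u (by linarith) (by linarith)] at this
    convert this using 2 <;> ring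
  have Hc : ∀ t : ℝ, 0 < t → t ≤ 1 / 8 →
      phi h a₁ a₂ b₁ b₂ c₁ c₂ 0 (h * t) 0 (4 * t) ≤ 0 := by
    intro t ht ht'
    have := H 0 t (by norm_num) (by linarith) (by linarith)
    rw [yf_nonneg_p ht.le (by linarith), Pf, kf_nonneg_u le_rfl (by norm_num)] at this
    convert this using 2 <;> ring
  have Hd : ∀ t : ℝ, 0 < t → t ≤ 1 / 8 →
      phi h a₁ a₂ b₁ b₂ c₁ c₂ 0 (-(4 * t)) 0 (-(4 * t)) ≤ 0 := by
    intro t ht ht'
    have := H 0 (-t) (by norm_num) (by linarith) (by linarith)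
    rw [yf_neg_p (by linarith), Pf, kf_nonneg_u le_rfl (by norm_num)] at this
    convert this using 2 <;> ring
  have He : ∀ d t : ℝ, 0 < d → d ≤ 1 → 0 < t → t ≤ 1 / 8 →
      phi h a₁ a₂ b₁ b₂ c₁ c₂ t (h * (d * t + t ^ 3)) (4 * h * t ^ 3 * (1 - 3 * d))
        (4 * (d * t)) ≤ 0 := by
    intro d t hd hd' ht ht'
    have hdt : 0 < d * t := by positivity
    have hdt' : d * t ≤ 1 / 8 := by nlinarith
    have := H t (d * t) (by rw [abs_of_pos ht]; linarith) (by linarith) (by linarith)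
    rw [yf_nonneg_p hdt.le (by linarith), Pf, kf_nonneg_u ht.le (by linarith)] at this
    convert this using 2
    ring
  have Hf : ∀ d t : ℝ, 0 < d → d ≤ 1 → 0 < t → t ≤ 1 / 8 →
      phi h a₁ a₂ b₁ b₂ c₁ c₂ (-t) (h * (d * t - t ^ 3)) (-t ^ 2 - 4 * h * t ^ 3 * (1 + 3 * d))
        (4 * (d * t)) ≤ 0 := by
    intro d t hd hd' ht ht'
    have hdt : 0 < d * t := by positivity
    have hdt' : d * t ≤ 1 / 8 := by nlinarith
    have := H (-t) (d * t) (by rw [abs_neg, abs_of_pos ht]; linarith) (by linarith) (by linarith)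
    rw [yf_nonneg_p hdt.le (by linarith), Pf, kf_neg_u (by linarith) (by linarith)] at this
    convert this using 2 <;> ring
  -- first order in `u`
  have hb1 : b₁ ≤ 0 := by
    have := lim_le (f := fun t => a₁ * (4 * h * t ^ 3) + a₂ * (h * t ^ 2 * (4 * h * t ^ 3))
      + b₁ * (1 - h * ((t ^ 2 + (h * t ^ 3) ^ 2) * (4 * h * t ^ 2)))
      + b₂ * (h * t ^ 2 - h * (2 * t * (h * t ^ 2) * (4 * h * t ^ 3))) + c₁ * (4 * h * t ^ 2))
      (by fun_prop) (by
        intro t ht ht'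
        have h2 := Ha t ht ht'
        unfold phi at h2
        by_contra hc
        push Not at hc
        have h3 := mul_pos ht hc
        apply absurd h2
        rw [not_le]
        calc (0 : ℝ) < _ := h3
          _ = _ := by ring)
    simpa using this
  have hb1' : 0 ≤ b₁ := by
    have := lim_le (f := fun t => a₁ * (-(-t ^ 2 - 4 * h * t ^ 3))
      + a₂ * (-(h * t ^ 2) * (-t ^ 2 - 4 * h * t ^ 3))
      + b₁ * (-1 - h * ((t ^ 2 + (h * t ^ 3) ^ 2) * (-t - 4 * h * t ^ 2)))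
      + b₂ * (-(h * t ^ 2) - h * (2 * t * (h * t ^ 2) * (-t ^ 2 - 4 * h * t ^ 3)))
      + c₁ * (-t - 4 * h * t ^ 2))
      (by fun_prop) (by
        intro t ht ht'
        have h2 := Hb t ht ht'
        unfold phi at h2
        by_contra hc
        push Not at hc
        have h3 := mul_pos ht hc
        apply absurd h2
        rw [not_le]
        calc (0 : ℝ) < _ := h3
          _ = _ := by ring)
    simp at this
    linarith
  have hb0 : b₁ = 0 := le_antisymm hb1 hb1'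
  subst hb0
  have hc1 : 0 ≤ c₁ := by
    have := lim_le (f := fun t => a₁ * (-(-t - 4 * h * t ^ 2))
      + a₂ * (-(h * t) * (-t ^ 2 - 4 * h * t ^ 3))
      + b₂ * (-(h * t) - h * (2 * (h * t ^ 2) * (-t ^ 2 - 4 * h * t ^ 3)))
      + c₁ * (-1 - 4 * h * t))
      (by fun_prop) (by
        intro t ht ht'
        have h2 := Hb t ht ht'
        unfold phi at h2
        by_contra hc
        push Not at hc
        have h3 := mul_pos (pow_pos ht 2) hc
        apply absurd h2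
        rw [not_le]
        calc (0 : ℝ) < _ := h3
          _ = _ := by ring)
    simp at this
    linarith
  have hbc : h * b₂ + 4 * h * c₁ ≤ 0 := by
    have := lim_le (f := fun t => a₁ * (4 * h * t) + a₂ * (h * (4 * h * t ^ 3))
      + b₂ * (h - h * (2 * t * h * (4 * h * t ^ 3))) + c₁ * (4 * h))
      (by fun_prop) (by
        intro t ht ht'
        have h2 := Ha t ht ht'
        unfold phi at h2
        by_contra hc
        push Not at hc
        have h3 := mul_pos (pow_pos ht 3) hc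
        apply absurd h2
        rw [not_le]
        calc (0 : ℝ) < _ := h3
          _ = _ := by ring)
    simp at this
    linarith
  have hcc : h * b₂ + 4 * c₂ ≤ 0 := by
    have := lim_le (f := fun t => a₁ * (h * (4 * t))
      + b₂ * (h - h * ((h * t) ^ 2 * 4)) + c₂ * 4)
      (by fun_prop) (by
        intro t ht ht'
        have h2 := Hc t ht ht'
        unfold phi at h2
        by_contra hc
        push Not at hc
        have h3 := mul_pos ht hc
        apply absurd h2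
        rw [not_le]
        calc (0 : ℝ) < _ := h3
          _ = _ := by ring)
    simp at this
    linarith
  have hdd : 0 ≤ b₂ + c₂ := by
    have := lim_le (f := fun t => a₁ * (4 * (4 * t))
      + b₂ * (-4 - h * ((4 * t) ^ 2 * (-4))) + c₂ * (-4))
      (by fun_prop) (by
        intro t ht ht'
        have h2 := Hd t ht ht'
        unfold phi at h2
        by_contra hc
        push Not at hc
        have h3 := mul_pos ht hc
        apply absurd h2
        rw [not_le]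
        calc (0 : ℝ) < _ := h3
          _ = _ := by ring)
    simp at this
    linarith
  have hb2 : b₂ = 0 := by
    apply le_antisymm
    · nlinarith
    · nlinarith
  subst hb2
  have hc1' : c₁ = 0 := by
    apply le_antisymm
    · nlinarith
    · exact hc1
  subst hc1'
  have hc2' : c₂ = 0 := by
    apply le_antisymm
    · nlinarith
    · linarith
  subst hc2'
  have hee : ∀ d : ℝ, 0 < d → d ≤ 1 → h * d * a₁ + a₂ ≤ 0 := by
    intro d hd hd'
    have := lim_le (f := fun t => a₁ * (4 * h * t ^ 2 * (1 - 3 * d) + h * (d + t ^ 2) * (4 * d))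
      + a₂ * (4 * d + h * (d + t ^ 2) * (4 * h * t ^ 2 * (1 - 3 * d))))
      (by fun_prop) (by
        intro t ht ht'
        have h2 := He d t hd hd' ht ht'
        unfold phi at h2
        by_contra hc
        push Not at hc
        have h3 := mul_pos (pow_pos ht 2) hc
        apply absurd h2
        rw [not_le]
        calc (0 : ℝ) < _ := h3
          _ = _ := by ring)
    simp at this
    by_contra hc
    push Not at hc
    have h3 := mul_pos hd hc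
    nlinarith
  have hff : ∀ d : ℝ, 0 < d → d ≤ 1 → h * d * a₁ - a₂ ≤ 0 := by
    intro d hd hd'
    have := lim_le (f := fun t => a₁ * ((t + 4 * h * t ^ 2 * (1 + 3 * d)) + h * (d - t ^ 2) * (4 * d))
      + a₂ * (-(4 * d) + h * (d - t ^ 2) * (-t - 4 * h * t ^ 2 * (1 + 3 * d))))
      (by fun_prop) (by
        intro t ht ht'
        have h2 := Hf d t hd hd' ht ht'
        unfold phi at h2
        by_contra hc
        push Not at hc
        have h3 := mul_pos (pow_pos ht 2) hc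
        apply absurd h2
        rw [not_le]
        calc (0 : ℝ) < _ := h3
          _ = _ := by ring)
    simp at this
    by_contra hc
    push Not at hc
    have h3 := mul_pos hd hc
    nlinarith
  have ha2 : a₂ ≤ 0 := by
    have := lim_le (f := fun d => h * d * a₁ + a₂) (by fun_prop)
      (fun d hd hd' => hee d hd (by linarith))
    simpa using this
  have ha2' : 0 ≤ a₂ := by
    have := lim_le (f := fun d => h * d * a₁ - a₂) (by fun_prop)
      (fun d hd hd' => hff d hd (by linarith))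
    simp at this
    linarith
  have ha2z : a₂ = 0 := le_antisymm ha2 ha2'
  subst ha2z
  rw [yf_nonneg_p (by norm_num) (by norm_num), Pf, kf_nonneg_u (by norm_num) (by norm_num)]
  unfold phi
  ring

end NotExposed

open NotExposed in
theorem not_exposed {ε K : ℝ} (hε : 0 < ε) (hK : 10 ^ 10 ≤ K)
    (hh : 10 ^ 60 * K ^ 40 * ε ^ 2 ≤ 1) :
    Aof ε K T0 ∉ Set.exposedPoints ℝ (convexHull ℝ (Aof ε K '' Gr 4 2)) := by
  rintro ⟨-, l, hl⟩
  have hs := h_small hK hh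
  have h0 : 0 < ε ^ 2 := by positivity
  obtain ⟨a₁, a₂, b₁, b₂, c₁, c₂, hφ⟩ := exists_coeffs ε l.toLinearMap
  have hT0 : Aof ε K T0 = EE ε 0 0 0 0 := by
    have e := Aof_slice (u := 0) (p := 0) hε hK hh (by norm_num) (by norm_num) (by norm_num)
    have hy : yf (ε ^ 2) 0 0 = 0 := by
      rw [yf_nonneg_p le_rfl (by norm_num)]
      ring
    have hP : Pf (ε ^ 2) 0 0 = 0 := by
      rw [Pf, kf_nonneg_u le_rfl (by norm_num)]
      ring
    rw [hy, hP, XX_zero, mul_zero] at e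
    exact e
  have hmem : ∀ u p : ℝ, |u| ≤ 1 → -(1 / 8) ≤ p → p ≤ 1 →
      EE ε u (yf (ε ^ 2) u p) (Pf (ε ^ 2) u p) (4 * p) ∈ convexHull ℝ (Aof ε K '' Gr 4 2) := by
    intro u p hu hp hp'
    rw [← Aof_slice hε hK hh hu hp hp']
    exact subset_convexHull ℝ _ ⟨_, Pm_mem _ _ _, rfl⟩
  have H : ∀ u p : ℝ, |u| ≤ 1 → -(1 / 8) ≤ p → p ≤ 1 →
      phi (ε ^ 2) a₁ a₂ b₁ b₂ c₁ c₂ u (yf (ε ^ 2) u p) (Pf (ε ^ 2) u p) (4 * p) ≤ 0 := by
    intro u p hu hp hp'
    have h2 := (hl _ (hmem u p hu hp hp')).1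
    rw [hT0] at h2
    have h3 := hφ u (yf (ε ^ 2) u p) (Pf (ε ^ 2) u p) (4 * p)
    simp only [ContinuousLinearMap.coe_coe] at h3
    linarith
  have hz := phi_eq_zero h0 hs H
  have h4 := hl _ (hmem 1 1 (by norm_num) (by norm_num) (by norm_num))
  have h5 := hφ 1 (yf (ε ^ 2) 1 1) (Pf (ε ^ 2) 1 1) 4
  rw [hz] at h5
  simp only [ContinuousLinearMap.coe_coe] at h5
  rw [hT0] at h4
  have h6 := h4.2 (by rw [mul_one, h5, add_zero])
  have h7 := congrFun (congrFun h6 2) 1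
  simp [EE] at h7
  exact hε.ne' h7

end EC
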